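import Pool.Agent.Helper19.TGX.Goals

/-! Project TGX, packet NFE: a number field which contains finitely many algebraic elements. -/

set_option autoImplicit false

open Polynomial

namespace Pool.Agent.Helper77.TGX.NFE

theorem t : Pool.Agent.Helper19.TGX.NFE := by
  classical
  intro K Ω _ _ _ _ p hp
  set T : Finset Ω := Finset.univ.biUnion (fun i : Fin 4 => (p i).support.image (p i).coeff)
    with hT
  have hTalg : ∀ x ∈ (T : Set Ω), IsIntegral K x := by
    intro x hx
    have hx' : x ∈ T := hx
    rw [hT, Finset.mem_biUnion] at hx'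
    obtain ⟨i, -, hi⟩ := hx'
    rw [Finset.mem_image] at hi
    obtain ⟨n, -, rfl⟩ := hi
    exact (hp i n).isIntegral
  set L : IntermediateField K Ω := IntermediateField.adjoin K (T : Set Ω) with hL
  have hfd : FiniteDimensional K L := IntermediateField.finiteDimensional_adjoin hTalg
  have hnf : NumberField L := NumberField.of_module_finite K L
  have hmem : ∀ i n, (p i).coeff n ∈ L := by
    intro i n
    by_cases h0 : (p i).coeff n = 0
    · rw [h0]
      exact L.zero_mem
    · apply IntermediateField.subset_adjoin
      have h1 : (p i).coeff n ∈ T := by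
        rw [hT, Finset.mem_biUnion]
        exact ⟨i, Finset.mem_univ i, Finset.mem_image.2 ⟨n, Polynomial.mem_support_iff.2 h0, rfl⟩⟩
      exact h1
  have hlift : ∀ i, ∃ q : L[X], q.map (algebraMap L Ω) = p i := by
    intro i
    rw [← Polynomial.mem_lifts, Polynomial.lifts_iff_coeff_lifts]
    intro n
    exact ⟨⟨(p i).coeff n, hmem i n⟩, rfl⟩
  choose q hq using hlift
  exact ⟨L, inferInstance, hnf, inferInstance, inferInstance, inferInstance, q, hq⟩

end Pool.Agent.Helper77.TGX.NFE
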